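import Mathlib
import Pool.Agent.Helper77.VE.Dens

/-!
Polynomials do not vanish at points whose coordinates have independent orders of growth.
-/

set_option autoImplicit false

namespace Pool.Agent.Helper36.VZ0

open Finset

theorem dens0 {n : ℕ} (G : MvPolynomial (Fin n) ℂ) (hG : G ≠ 0) (w : Fin n → ℕ) (C₁ C₂ : ℝ) (hC₁ : 0 < C₁)
    (hw : ∀ e ∈ G.support, ∀ e' ∈ G.support, ∑ j, e j * w j = ∑ j, e' j * w j → e = e') :
    ∃ T : ℝ, ∀ τ : ℝ, T < τ → ∀ z : Fin n → ℂ,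
      (∀ j, C₁ * τ ^ w j ≤ ‖z j‖ ∧ ‖z j‖ ≤ C₂ * τ ^ w j) → MvPolynomial.eval z G ≠ 0 := by
  classical
  have hne : G.support.Nonempty := MvPolynomial.support_nonempty.mpr hG
  obtain ⟨e, he, hmax⟩ := G.support.exists_max_image (fun e => ∑ j, e j * w j) hne
  set W : ℕ := ∑ j, e j * w j with hW
  have he0 : G.coeff e ≠ 0 := MvPolynomial.mem_support_iff.mp he
  set A : ℝ := ‖G.coeff e‖ * C₁ ^ (∑ j, e j) with hA
  have hA0 : 0 < A := mul_pos (norm_pos_iff.mpr he0) (pow_pos hC₁ _)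
  set D : ℝ := ∑ e' ∈ G.support.erase e, ‖G.coeff e'‖ * C₂ ^ (∑ j, e' j) with hD
  refine ⟨max 1 (D / A), fun τ hτ z hz => ?_⟩
  have hτ1 : 1 < τ := (le_max_left _ _).trans_lt hτ
  have hτ2 : D / A < τ := (le_max_right _ _).trans_lt hτ
  have hτ0 : 0 < τ := one_pos.trans hτ1
  have hprod : ∀ e' : Fin n →₀ ℕ, ∀ C : ℝ, ∏ j, (C * τ ^ w j) ^ e' j = C ^ (∑ j, e' j) * τ ^ (∑ j, e' j * w j) := by
    intro e' C
    have : ∀ j, (C * τ ^ w j) ^ e' j = C ^ e' j * τ ^ (e' j * w j) := by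
      intro j
      rw [mul_pow, ← pow_mul, mul_comm (w j)]
    rw [Finset.prod_congr rfl fun j _ => this j, Finset.prod_mul_distrib, Finset.prod_pow_eq_pow_sum,
      Finset.prod_pow_eq_pow_sum]
  have hlow : A * τ ^ W ≤ ‖G.coeff e * ∏ j, z j ^ e j‖ := by
    rw [norm_mul, norm_prod, hA, mul_assoc, ← hprod]
    refine mul_le_mul_of_nonneg_left ?_ (norm_nonneg _)
    refine Finset.prod_le_prod (fun j _ => by positivity) fun j _ => ?_
    rw [norm_pow]
    exact pow_le_pow_left₀ (by positivity) (hz j).1 _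
  have hup : ‖∑ e' ∈ G.support.erase e, G.coeff e' * ∏ j, z j ^ e' j‖ ≤ D * τ ^ W / τ := by
    refine (norm_sum_le _ _).trans ?_
    rw [hD, Finset.sum_mul, Finset.sum_div]
    refine Finset.sum_le_sum fun e' he' => ?_
    have he'1 := Finset.mem_of_mem_erase he'
    have he'2 := Finset.ne_of_mem_erase he'
    have hlt : ∑ j, e' j * w j < W := by
      refine lt_of_le_of_ne (hmax e' he'1) fun h => he'2 (hw e' he'1 e he h)
    have hC₂ : ∀ j, 0 ≤ C₂ * τ ^ w j := fun j => (norm_nonneg _).trans (hz j).2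
    have h1 : ‖∏ j, z j ^ e' j‖ ≤ C₂ ^ (∑ j, e' j) * τ ^ (∑ j, e' j * w j) := by
      rw [norm_prod, ← hprod]
      refine Finset.prod_le_prod (fun j _ => norm_nonneg _) fun j _ => ?_
      rw [norm_pow]
      exact pow_le_pow_left₀ (norm_nonneg _) (hz j).2 _
    have h2 : 0 ≤ C₂ ^ (∑ j, e' j) := by
      by_contra hcon
      push Not at hcon
      have h3 : 0 ≤ C₂ ^ (∑ j, e' j) * τ ^ (∑ j, e' j * w j) := (norm_nonneg _).trans h1
      have h4 : (0:ℝ) < τ ^ (∑ j, e' j * w j) := by positivity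
      nlinarith
    have h5 : τ ^ (∑ j, e' j * w j) ≤ τ ^ W / τ := by
      rw [le_div_iff₀ hτ0, ← pow_succ]
      exact pow_le_pow_right₀ hτ1.le hlt
    rw [norm_mul, mul_div_assoc, mul_assoc]
    exact mul_le_mul_of_nonneg_left (h1.trans (mul_le_mul_of_nonneg_left h5 h2)) (norm_nonneg _)
  have hlt : D * τ ^ W / τ < A * τ ^ W := by
    rw [div_lt_iff₀ hτ0]
    have h1 : D < A * τ := by
      rw [div_lt_iff₀ hA0] at hτ2
      linarith
    have h2 : 0 < τ ^ W := by positivity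
    nlinarith
  rw [MvPolynomial.eval_eq', ← Finset.add_sum_erase _ _ he]
  intro h0
  have h1 : G.coeff e * ∏ j, z j ^ e j = -∑ e' ∈ G.support.erase e, G.coeff e' * ∏ j, z j ^ e' j :=
    eq_neg_of_add_eq_zero_left h0
  rw [h1, norm_neg] at hlow
  linarith

/-- the weights `2 ^ (j s) + 2 ^ (n s)`, `j ≤ n` -/
theorem weights_inj (n s : ℕ) (e e' : Fin (n + 1) →₀ ℕ) (he : ∀ j, e j < 2 ^ s) (he' : ∀ j, e' j < 2 ^ s)
    (h : ∑ j : Fin (n + 1), e j * (2 ^ ((j : ℕ) * s) + 2 ^ (n * s)) =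
      ∑ j : Fin (n + 1), e' j * (2 ^ ((j : ℕ) * s) + 2 ^ (n * s))) : e = e' := by
  -- the lower digits
  have hlow : ∀ f : Fin n → ℕ, (∀ j, f j < 2 ^ s) → ∑ j : Fin n, f j * 2 ^ ((j : ℕ) * s) < 2 ^ (n * s) := by
    intro f hf
    have h1 := (finFunctionFinEquiv (fun j : Fin n => (⟨f j, hf j⟩ : Fin (2 ^ s)))).2
    rw [finFunctionFinEquiv_apply] at h1
    simp only [← pow_mul, mul_comm s] at h1
    exact h1
  have hsplit : ∀ f : Fin (n + 1) →₀ ℕ, ∑ j : Fin (n + 1), f j * (2 ^ ((j : ℕ) * s) + 2 ^ (n * s)) =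
      ∑ j : Fin n, f j.castSucc * 2 ^ ((j : ℕ) * s) +
        2 ^ (n * s) * (∑ j : Fin n, f j.castSucc + 2 * f (Fin.last n)) := by
    intro f
    rw [Fin.sum_univ_castSucc]
    simp only [mul_add, Finset.sum_add_distrib, Fin.val_castSucc, Fin.val_last, Finset.mul_sum]
    have : ∑ j : Fin n, f j.castSucc * 2 ^ (n * s) = ∑ j : Fin n, 2 ^ (n * s) * f j.castSucc :=
      Finset.sum_congr rfl fun j _ => mul_comm _ _
    rw [this]
    ring
  rw [hsplit, hsplit] at h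
  have hL := hlow (fun j => e j.castSucc) fun j => he _
  have hL' := hlow (fun j => e' j.castSucc) fun j => he' _
  have h1 : ∑ j : Fin n, e j.castSucc * 2 ^ ((j : ℕ) * s) = ∑ j : Fin n, e' j.castSucc * 2 ^ ((j : ℕ) * s) := by
    have := congrArg (fun x => x % 2 ^ (n * s)) h
    simp only [Nat.add_mul_mod_self_left] at this
    rwa [Nat.mod_eq_of_lt hL, Nat.mod_eq_of_lt hL'] at this
  have h2 : ∑ j : Fin n, e j.castSucc + 2 * e (Fin.last n) = ∑ j : Fin n, e' j.castSucc + 2 * e' (Fin.last n) := by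
    rw [h1] at h
    exact Nat.eq_of_mul_eq_mul_left (by positivity) (Nat.add_left_cancel h)
  let g : Fin n →₀ ℕ := Finsupp.equivFunOnFinite.symm fun j => e j.castSucc
  let g' : Fin n →₀ ℕ := Finsupp.equivFunOnFinite.symm fun j => e' j.castSucc
  have h3 : g = g' := Helper77.VE.digits_inj n s g g' (fun j => he _) (fun j => he' _) h1
  have h4 : ∀ j : Fin n, e j.castSucc = e' j.castSucc := fun j => DFunLike.congr_fun h3 j
  have h5 : e (Fin.last n) = e' (Fin.last n) := by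
    rw [Finset.sum_congr rfl fun j _ => h4 j] at h2
    omega
  ext j
  refine Fin.lastCases h5 (fun j => h4 j) j

end Pool.Agent.Helper36.VZ0
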