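import Mathlib
import Pool.Agent.Helper64.VZ.Fields

/-!
Discriminant bound for the root of `X ^ 2 + b X + 1`, and its height.
-/

set_option autoImplicit false

namespace Pool.Agent.Helper36.VZ0

open NumberField IntermediateField Module Height Polynomial Pool.Agent.Helper64.Vojta
  Pool.Agent.Helper64.VZ

universe u

section general

variable {F : Type*} [Field F] [NumberField F] {L : Type*} [Field L] [NumberField L]

theorem log_nv_sq_sub_four (w : InfinitePlace L) (b : L) (hb : b ^ 2 - 4 ≠ 0) :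
    Real.log (nv (.inl w) (b ^ 2 - 4)) ≤ 2 * (w.mult * Real.posLog (w b)) + w.mult * Real.log 5 := by
  have h1 : w (b ^ 2 - 4) ≤ 5 * (max 1 (w b)) ^ 2 := by
    have h2 : w (4 : L) = 4 := by
      have := InfinitePlace.map_natCast w 4
      simpa using this
    have h3 : w (b ^ 2 - 4) ≤ w (b ^ 2) + w 4 := by
      have := w.1.sub_le (b ^ 2) 0 4
      rw [sub_zero, zero_sub] at this
      have h5 : w.1 (-4) = w.1 4 := w.1.map_neg 4
      rw [h5] at this
      exact this
    rw [h2, map_pow] at h3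
    have h4 := le_max_left 1 (w b)
    have h5 := le_max_right 1 (w b)
    have h6 : 0 ≤ w b := apply_nonneg w b
    nlinarith
  have h0 : 0 < w (b ^ 2 - 4) := InfinitePlace.pos_iff.mpr hb
  have hm : (0 : ℝ) < max 1 (w b) := lt_of_lt_of_le one_pos (le_max_left _ _)
  have h2 : Real.log (w (b ^ 2 - 4)) ≤ 2 * Real.posLog (w b) + Real.log 5 := by
    refine (Real.log_le_log h0 h1).trans ?_
    rw [Real.log_mul (by norm_num) (by positivity), Real.log_pow,
      Real.posLog_eq_log_max_one (apply_nonneg w b)]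
    push_cast
    linarith
  have h3 : Real.log (nv (.inl w) (b ^ 2 - 4)) = w.mult * Real.log (w (b ^ 2 - 4)) := by
    simp only [nv, Real.log_pow]
  rw [h3]
  have h4 : (0 : ℝ) ≤ w.mult := Nat.cast_nonneg _
  nlinarith

/-- `X ^ 2 + b X + 1` -/
theorem rd_quad1 [Algebra F L] (b : 𝓞 F) (θ : 𝓞 L)
    (hθ : θ ^ 2 + algebraMap (𝓞 F) (𝓞 L) b * θ + 1 = 0)
    (h0 : (algebraMap (𝓞 F) (𝓞 L) b) ^ 2 - 4 ≠ 0)
    (hadj : Algebra.adjoin F {(θ : L)} = ⊤) :
    rd L ≤ rd F + nh ((algebraMap (𝓞 F) (𝓞 L) b : 𝓞 L) : L) + Real.log 5 / 2 := by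
  set b' : 𝓞 L := algebraMap (𝓞 F) (𝓞 L) b with hb'
  have hsq : (2 * θ + b') ^ 2 = b' ^ 2 - 4 := by linear_combination 4 * hθ
  have hval : aeval θ (derivative (X ^ 2 + C b * X + 1)) = 2 * θ + b' := by
    simp only [derivative_X_pow, derivative_C_mul, derivative_X, derivative_one,
      map_add, map_mul, aeval_C, map_pow, aeval_X, ← hb']
    norm_num
    left
    exact map_ofNat _ 2
  have hc0 : 2 * θ + b' ≠ 0 := by
    intro h
    rw [h, zero_pow two_ne_zero] at hsq
    exact h0 hsq.symm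
  have h1 := rd_le θ hadj (X ^ 2 + C b * X + 1) (by simpa [← hb'] using hθ) (by rw [hval]; exact hc0)
  rw [hval, log_norm_eq _ hc0] at h1
  have e0 : ((b' ^ 2 - 4 : 𝓞 L) : L) = (b' : L) ^ 2 - 4 := by
    push_cast
    congr 1
  have e3 : (b' : L) ^ 2 - 4 ≠ 0 := by
    rw [← e0]
    exact RingOfIntegers.coe_ne_zero_iff.mpr h0
  have h2 : ∀ w : InfinitePlace L, 2 * Real.log (nv (.inl w) ((2 * θ + b' : 𝓞 L) : L)) =
      Real.log (nv (.inl w) ((b' : L) ^ 2 - 4)) := by
    intro w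
    have e1 : ((2 * θ + b' : 𝓞 L) : L) ^ 2 = (b' : L) ^ 2 - 4 := by
      have := congrArg (algebraMap (𝓞 L) L) hsq
      rw [map_pow] at this
      rw [← e0]
      exact this
    have e5 := congrArg (fun z => Real.log (nv (.inl w) z)) e1
    rw [sq, nv_mul, ← sq, Real.log_pow] at e5
    push_cast at e5
    exact e5
  have h4 : ∑ w : InfinitePlace L, Real.log (nv (.inl w) ((b' : L) ^ 2 - 4)) ≤
      2 * (finrank ℚ L * nh (b' : L)) + finrank ℚ L * Real.log 5 := by
    calc ∑ w : InfinitePlace L, Real.log (nv (.inl w) ((b' : L) ^ 2 - 4))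
        ≤ ∑ w : InfinitePlace L, (2 * ((w.mult : ℝ) * Real.posLog (w (b' : L))) + w.mult * Real.log 5) :=
          Finset.sum_le_sum fun w _ => log_nv_sq_sub_four w _ e3
      _ = 2 * ∑ w : InfinitePlace L, (w.mult : ℝ) * Real.posLog (w (b' : L)) + finrank ℚ L * Real.log 5 := by
          rw [Finset.sum_add_distrib, ← Finset.sum_mul, sum_mult, Finset.mul_sum]
      _ ≤ _ := by
          have := sum_mult_posLog_le (b' : L)
          linarith
  have h5 : 2 * ∑ w : InfinitePlace L, Real.log (nv (.inl w) ((2 * θ + b' : 𝓞 L) : L)) ≤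
      2 * (finrank ℚ L * nh (b' : L)) + finrank ℚ L * Real.log 5 := by
    rw [Finset.mul_sum, Finset.sum_congr rfl fun w _ => h2 w]
    exact h4
  have h6 := finrank_pos' L
  have h7 : (∑ w : InfinitePlace L, Real.log (nv (.inl w) ((2 * θ + b' : 𝓞 L) : L))) / finrank ℚ L ≤
      nh (b' : L) + Real.log 5 / 2 := by
    rw [div_le_iff₀ h6]
    linarith
  linarith

end general

variable {k : Type u} [Field k] [NumberField k]

/-- adjoining a root of `X ^ 2 + b X + 1` for an integer `b` -/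
theorem bd_quad1 {E : IntermediateField k (AlgebraicClosure k)} {r : ℕ} {c : ℝ} (hE : Bd E r c)
    (b l : AlgebraicClosure k) (hb : b ∈ E) (hbi : IsIntegral ℤ b)
    (hli : IsIntegral ℤ l) (hl : l ^ 2 + b * l + 1 = 0) (h4 : b ^ 2 - 4 ≠ 0) :
    ∃ E' : IntermediateField k (AlgebraicClosure k), E ≤ E' ∧ l ∈ E' ∧
      Bd E' (r * 2) (c + H b + Real.log 5 / 2) := by
  obtain ⟨h0, h1, h2⟩ := hE
  have hnf := nf_adj E l
  have hlE' : l ∈ E⟮l⟯ := mem_adjoin_simple_self E l
  let b' : 𝓞 E := ⟨⟨b, hb⟩, int_sub hb hbi⟩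
  let l' : 𝓞 E⟮l⟯ := ⟨⟨l, hlE'⟩, int_sub' hlE' hli⟩
  refine ⟨ext E l, le_ext E l, mem_ext E l, bd_ext E l 2 (Nat.mul_le_mul_right _ h1)
    (X ^ 2 + (C ⟨b, hb⟩ * X + 1)) ?_ ?_ ?_ ?_⟩
  · intro h
    have h5 := congrArg (fun P => coeff P 2) h
    simp [coeff_one] at h5
  · rw [map_add, map_add, map_mul, map_pow, aeval_X, aeval_C, map_one]
    rw [← add_assoc]
    exact hl
  · compute_degree
  · have h3 := rd_quad1 (F := E) (L := E⟮l⟯) b' l' (by
      apply RingOfIntegers.ext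
      apply Subtype.ext
      exact hl) (by
      intro h
      apply h4
      have h5 := congrArg (fun z : 𝓞 E⟮l⟯ => ((z : E⟮l⟯) : AlgebraicClosure k)) h
      exact h5) (adj_top E l)
    have h6 : nh ((algebraMap (𝓞 E) (𝓞 E⟮l⟯) b' : 𝓞 E⟮l⟯) : E⟮l⟯) = H b := by
      have h7 := H_eq E ⟨b, hb⟩
      have h8 := nh_map (algebraMap E E⟮l⟯) ⟨b, hb⟩
      rw [← h7, ← h8]
      rfl
    rw [h6] at h3
    linarith

/-- the height of `s ^ 2` -/
theorem H_sq_ge (b s : AlgebraicClosure k) (hs : s ^ 2 + b * s + 1 = 0) :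
    H b - Real.log 2 ≤ H (1 + b * s) := by
  have hs0 : s ≠ 0 := by
    rintro rfl
    norm_num at hs
  have e1 : 1 + b * s = (-1) * s ^ 2 := by linear_combination hs
  have e2 : b = (-1) * s - s⁻¹ := by
    field_simp
    linear_combination hs
  have hm1 : H (-1 : AlgebraicClosure k) = 0 := by
    have h := H_pow (-1 : AlgebraicClosure k) 2
    rw [neg_one_sq, H_one] at h
    push_cast at h
    linarith
  have h1 := H_sub_le ((-1) * s) (s⁻¹ : AlgebraicClosure k)
  rw [← e2, H_inv] at h1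
  have h2 := H_mul_le (-1 : AlgebraicClosure k) s
  have h3 := H_mul_le (-1 : AlgebraicClosure k) ((-1) * s ^ 2)
  have e3 : (-1 : AlgebraicClosure k) * ((-1) * s ^ 2) = s ^ 2 := by ring
  rw [e3, H_pow, hm1] at h3
  rw [hm1] at h2
  rw [e1]
  push_cast at h3
  linarith

end Pool.Agent.Helper36.VZ0
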