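import Mathlib
import Pool.Agent.Helper64.VZ.Exist
import Pool.Agent.Helper36.VZ0.Quad
import Pool.Agent.Helper36.VZ0.Dens

/-!
Points of degree at most `4 [k : k]` all of whose coordinates `1, y_1, .., y_n, 1 + y_1 + .. + y_n` are
units, with root discriminant at most the height.
-/

set_option autoImplicit false

namespace Pool.Agent.Helper36.VZ0

open NumberField IntermediateField Module Height Polynomial Pool.Agent.Helper64.Vojta
  Pool.Agent.Helper64.VZ

universe u

variable {k : Type u} [Field k] [NumberField k]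

omit [NumberField k] in
theorem int_quad1 {b l : AlgebraicClosure k} (hb : IsIntegral ℤ b) (hl : l ^ 2 + b * l + 1 = 0) :
    IsIntegral ℤ l := by
  let A := integralClosure ℤ (AlgebraicClosure k)
  let b' : A := ⟨b, hb⟩
  have h1 : IsIntegral A l := by
    refine ⟨X ^ 2 + (C b' * X + 1), ?_, ?_⟩
    · apply monic_X_pow_add
      have : (C b' * X + 1).degree ≤ 1 := by compute_degree
      exact this.trans_lt (by norm_num)
    · rw [eval₂_add, eval₂_add, eval₂_mul, eval₂_pow, eval₂_X, eval₂_C, eval₂_one]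
      have : (algebraMap A (AlgebraicClosure k)) b' = b := rfl
      rw [this, ← add_assoc]
      exact hl
  exact isIntegral_trans (R := ℤ) (A := A) l h1

/-- the base field and the fundamental unit -/
theorem exists_base (σ : AlgebraicClosure k →+* ℂ) :
    ∃ (E₀ : IntermediateField k (AlgebraicClosure k)) (c₀ : ℝ) (ε δ : AlgebraicClosure k),
      Bd E₀ 2 c₀ ∧ ε ∈ E₀ ∧ IsIntegral ℤ ε ∧ IsIntegral ℤ δ ∧ ε * δ = 1 ∧
        σ ε = ((1 + Real.sqrt 2 : ℝ) : ℂ) := by
  obtain ⟨ρ, hρ, hσρ⟩ := exists_sq σ 2 2 (by norm_num) (by rw [map_ofNat]; push_cast; rfl)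
  have h1i : IsIntegral ℤ (1 : AlgebraicClosure k) := isIntegral_one
  have h2i : IsIntegral ℤ (2 : AlgebraicClosure k) := by
    have : (2 : AlgebraicClosure k) = 1 + 1 := by norm_num
    rw [this]
    exact h1i.add h1i
  have hρi : IsIntegral ℤ ρ := by
    apply IsIntegral.of_pow (n := 2) (by norm_num)
    rw [hρ]
    exact h2i
  obtain ⟨E₀, -, hρE, hb⟩ := bd_root (k := k) bd_bot ρ 2 two_ne_zero (by
    rw [hρ]
    exact_mod_cast (⊥ : IntermediateField k (AlgebraicClosure k)).natCast_mem 2) hρi 2 two_ne_zero 1 h1i (by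
    rw [hρ, mul_one]
    norm_num)
  refine ⟨E₀, _, 1 + ρ, ρ - 1, hb, E₀.add_mem E₀.one_mem hρE, h1i.add hρi, hρi.sub h1i, ?_, ?_⟩
  · have : (1 + ρ) * (ρ - 1) = ρ ^ 2 - 1 := by ring
    rw [this, hρ]
    norm_num
  · rw [map_add, map_one, hσρ]
    push_cast
    rfl

/-- heights of the elements of a fixed field which are large in one embedding -/
theorem H_ge_of_mem (E : IntermediateField k (AlgebraicClosure k)) [NumberField E]
    (σ : AlgebraicClosure k →+* ℂ) (x : AlgebraicClosure k) (hx : x ∈ E) :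
    Real.log ‖σ x‖ ≤ finrank ℚ E * H x := by
  have h1 := H_eq E ⟨x, hx⟩
  have h2 := log_norm_le (σ.comp (algebraMap E (AlgebraicClosure k))) (⟨x, hx⟩ : E)
  rw [h1] at h2
  exact h2

/-- The points. -/
theorem exists_points (σ : AlgebraicClosure k →+* ℂ) (n : ℕ)
    (G : MvPolynomial (Fin (n + 1)) (AlgebraicClosure k)) (hG : G ≠ 0) :
    ∃ c : ℝ, ∀ M : ℝ, ∃ (y : Fin (n + 1) → AlgebraicClosure k) (h : ℝ)
      (E : IntermediateField k (AlgebraicClosure k)),
      M ≤ h ∧ Bd E 4 (h + c) ∧ (∀ j, y j ∈ E) ∧ h - c ≤ H (1 + ∑ j, y j) ∧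
      (∀ j, IsIntegral ℤ (y j)) ∧ (∀ j, ∃ v, IsIntegral ℤ v ∧ y j * v = 1) ∧
      (∃ v, IsIntegral ℤ v ∧ (1 + ∑ j, y j) * v = 1) ∧ MvPolynomial.eval y G ≠ 0 := by
  classical
  obtain ⟨E₀, c₀, ε, δ, hE₀, hεE, hεi, hδi, hεδ, hσε⟩ := exists_base σ
  have hE₀' := hE₀
  obtain ⟨hnf₀, -, -⟩ := hE₀'
  have h1i : IsIntegral ℤ (1 : AlgebraicClosure k) := isIntegral_one
  have hs2 : 1 < Real.sqrt 2 := by
    rw [Real.lt_sqrt (by norm_num)]
    norm_num
  -- the digits
  obtain ⟨s, hs⟩ : ∃ s : ℕ, ∀ e ∈ G.support, ∀ j, e j < 2 ^ s := by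
    refine ⟨G.totalDegree, fun e he j => ?_⟩
    have h1 : e j ≤ G.totalDegree := (Finsupp.le_degree j e).trans (MvPolynomial.le_totalDegree he)
    exact h1.trans_lt Nat.lt_two_pow_self
  set a : Fin (n + 1) → ℕ := fun j => 2 ^ ((j : ℕ) * s) with ha
  -- the density
  have hG' : G.map σ ≠ 0 := by
    intro h
    apply hG
    exact MvPolynomial.map_injective σ σ.injective (by rw [h, map_zero])
  have hsupp : ∀ e ∈ (G.map σ).support, e ∈ G.support := fun e he => MvPolynomial.support_map_subset σ G he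
  obtain ⟨T, hT⟩ := dens0 (G.map σ) hG' (fun j => a j + 2 ^ (n * s)) (1 / 2) (n + 1) (by norm_num)
    fun e he e' he' h => weights_inj n s e e' (hs e (hsupp e he)) (hs e' (hsupp e' he')) h
  refine ⟨|c₀| + Real.log 5 / 2 + Real.log 2, fun M => ?_⟩
  have hlog : 0 < Real.log (1 + Real.sqrt 2) := Real.log_pos (by linarith)
  have hfr := finrank_pos' E₀
  obtain ⟨N, hN⟩ := exists_nat_gt (max (max 1 T) (finrank ℚ E₀ * M / Real.log (1 + Real.sqrt 2)))
  have hN1 : (1 : ℝ) < N := ((le_max_left _ _).trans (le_max_left _ _)).trans_lt hN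
  have hN2 : T < N := ((le_max_right _ _).trans (le_max_left _ _)).trans_lt hN
  have hN3 : finrank ℚ E₀ * M / Real.log (1 + Real.sqrt 2) < N := (le_max_right _ _).trans_lt hN
  set τ : ℝ := (1 + Real.sqrt 2) ^ N with hτ
  have hτN : (N : ℝ) < τ := by
    have h1 : (N : ℝ) < (2 : ℝ) ^ N := by exact_mod_cast (Nat.lt_two_pow_self : N < 2 ^ N)
    exact h1.trans_le (pow_le_pow_left₀ (by norm_num) (by linarith) N)
  have hτ1 : 1 < τ := hN1.trans hτN
  have hτ0 : 0 < τ := one_pos.trans hτ1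
  have hτ2 : 1 + Real.sqrt 2 ≤ τ := by
    have hN0 : N ≠ 0 := by
      rintro rfl
      norm_num at hN1
    calc 1 + Real.sqrt 2 = (1 + Real.sqrt 2) ^ 1 := (pow_one _).symm
      _ ≤ _ := pow_le_pow_right₀ (by linarith) (Nat.one_le_iff_ne_zero.mpr hN0)
  set t : AlgebraicClosure k := ε ^ N with ht
  have hσt : σ t = (τ : ℂ) := by
    rw [ht, map_pow, hσε, hτ, Complex.ofReal_pow]
  have htE : t ∈ E₀ := pow_mem hεE N
  have hti : IsIntegral ℤ t := hεi.pow N
  have htu : t * δ ^ N = 1 := by rw [ht, ← mul_pow, hεδ, one_pow]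
  -- the sum
  set b : AlgebraicClosure k := ∑ j, t ^ a j with hb
  set β : ℝ := ∑ j, τ ^ a j with hβ
  have hσb : σ b = (β : ℂ) := by
    rw [hb, hβ, map_sum]
    push_cast
    refine Finset.sum_congr rfl fun j _ => ?_
    rw [map_pow, hσt]
  have hbE : b ∈ E₀ := sum_mem fun j _ => pow_mem htE _
  have hbi : IsIntegral ℤ b := IsIntegral.sum _ fun j _ => hti.pow _
  have halast : a (Fin.last n) = 2 ^ (n * s) := rfl
  have hβlow : τ ^ (2 ^ (n * s)) ≤ β := by
    rw [← halast]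
    exact Finset.single_le_sum (f := fun j => τ ^ a j) (fun j _ => by positivity) (Finset.mem_univ (Fin.last n))
  have hβup : β ≤ (n + 1) * τ ^ (2 ^ (n * s)) := by
    calc β ≤ ∑ _j : Fin (n + 1), τ ^ (2 ^ (n * s)) := by
          refine Finset.sum_le_sum fun j _ => pow_le_pow_right₀ hτ1.le ?_
          exact Nat.pow_le_pow_right (by norm_num) (Nat.mul_le_mul_right _ (Nat.lt_succ_iff.mp j.2))
      _ = _ := by
          rw [Finset.sum_const, Finset.card_univ, Fintype.card_fin, nsmul_eq_mul]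
          push_cast
          rfl
  have hβτ : τ ≤ β := by
    refine le_trans ?_ hβlow
    calc τ = τ ^ 1 := (pow_one _).symm
      _ ≤ _ := pow_le_pow_right₀ hτ1.le Nat.one_le_two_pow
  have hβ2 : 2 < β := by linarith
  have hβ4 : 0 < β ^ 2 - 4 := by nlinarith
  -- the root
  obtain ⟨w, hw, hσw⟩ := exists_sq σ (b ^ 2 - 4) (β ^ 2 - 4) hβ4.le (by
    rw [map_sub, map_pow, hσb, map_ofNat]
    push_cast
    rfl)
  set ω : ℝ := Real.sqrt (β ^ 2 - 4) with hω
  have hω0 : 0 ≤ ω := Real.sqrt_nonneg _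
  have hωβ : ω ≤ β := by
    rw [hω, Real.sqrt_le_left (by linarith)]
    linarith
  set l : AlgebraicClosure k := -(b + w) / 2 with hl
  have h20 : (2 : AlgebraicClosure k) ≠ 0 := two_ne_zero
  have hleq : l ^ 2 + b * l + 1 = 0 := by
    rw [hl]
    field_simp
    linear_combination hw
  have hσl : σ l = ((-(β + ω) / 2 : ℝ) : ℂ) := by
    rw [hl, map_div₀, map_neg, map_add, hσb, hσw, map_ofNat]
    push_cast
    rfl
  have hnl : ‖σ l‖ = (β + ω) / 2 := by
    rw [hσl, Complex.norm_real, Real.norm_eq_abs, neg_div, abs_neg, abs_of_pos (by linarith)]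
  have hli : IsIntegral ℤ l := int_quad1 hbi hleq
  have hlu : l * (-(b + l)) = 1 := by linear_combination -hleq
  have hbl4 : b ^ 2 - 4 ≠ 0 := by
    intro h
    have h1 := congrArg σ h
    rw [map_sub, map_pow, hσb, map_ofNat, map_zero] at h1
    have h2 : β ^ 2 - 4 = 0 := by exact_mod_cast h1
    linarith
  obtain ⟨E, hE, hlE, hbd⟩ := bd_quad1 hE₀ b l hbE hbi hli hleq hbl4
  have hHb : N * Real.log (1 + Real.sqrt 2) ≤ finrank ℚ E₀ * H b := by
    have h1 := H_ge_of_mem E₀ σ b hbE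
    rw [hσb, Complex.norm_real, Real.norm_of_nonneg (by linarith)] at h1
    refine le_trans ?_ h1
    rw [← Real.log_pow, ← hτ]
    exact Real.log_le_log hτ0 hβτ
  have hsum : 1 + ∑ j, l * t ^ a j = 1 + b * l := by
    rw [← Finset.mul_sum, ← hb, mul_comm]
  refine ⟨fun j => l * t ^ a j, H b, E, ?_, ?_, ?_, ?_, ?_, ?_, ?_, ?_⟩
  · rw [div_lt_iff₀ hlog] at hN3
    by_contra hcon
    push Not at hcon
    have := mul_lt_mul_of_pos_left hcon hfr
    linarith
  · refine hbd.mono (by norm_num) ?_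
    have h1 := le_abs_self c₀
    have h2 : 0 < Real.log 2 := Real.log_pos (by norm_num)
    linarith
  · intro j
    exact E.mul_mem hlE (pow_mem (hE htE) _)
  · have h1 := H_sq_ge b l hleq
    have h2 := abs_nonneg c₀
    have h3 : 0 < Real.log 5 := Real.log_pos (by norm_num)
    rw [hsum]
    linarith
  · intro j
    exact hli.mul (hti.pow _)
  · intro j
    refine ⟨-(b + l) * (δ ^ N) ^ a j, ((hbi.add hli).neg).mul ((hδi.pow N).pow _), ?_⟩
    calc l * t ^ a j * (-(b + l) * (δ ^ N) ^ a j) = (l * (-(b + l))) * (t * δ ^ N) ^ a j := by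
          rw [mul_pow]; ring
      _ = 1 := by rw [hlu, htu, one_pow, mul_one]
  · refine ⟨-(b + l) ^ 2, ((hbi.add hli).pow 2).neg, ?_⟩
    rw [hsum]
    have h1 : 1 + b * l = -l ^ 2 := by linear_combination hleq
    rw [h1]
    calc -l ^ 2 * -(b + l) ^ 2 = (l * (-(b + l))) ^ 2 := by ring
      _ = 1 := by rw [hlu, one_pow]
  · intro h0
    refine hT τ (hN2.trans hτN) (fun j => σ (l * t ^ a j)) (fun j => ?_) ?_
    · rw [map_mul, map_pow, hσt, norm_mul, hnl, norm_pow, Complex.norm_real, Real.norm_of_nonneg hτ0.le, pow_add]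
      have h1 : 0 < τ ^ a j := by positivity
      have h2 : 0 < τ ^ (2 ^ (n * s)) := by positivity
      constructor
      · have h3 : τ ^ (2 ^ (n * s)) / 2 ≤ (β + ω) / 2 := by linarith
        calc 1 / 2 * (τ ^ a j * τ ^ (2 ^ (n * s))) = τ ^ (2 ^ (n * s)) / 2 * τ ^ a j := by ring
          _ ≤ _ := mul_le_mul_of_nonneg_right h3 h1.le
      · have h3 : (β + ω) / 2 ≤ (n + 1) * τ ^ (2 ^ (n * s)) := by linarith
        calc (β + ω) / 2 * τ ^ a j ≤ (n + 1) * τ ^ (2 ^ (n * s)) * τ ^ a j :=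
              mul_le_mul_of_nonneg_right h3 h1.le
          _ = _ := by ring
    · have h1 := congrArg σ h0
      rw [map_zero] at h1
      have h2 := MvPolynomial.eval₂_comp_left σ (RingHom.id (AlgebraicClosure k))
        (fun j => l * t ^ a j) G
      rw [MvPolynomial.eval₂_id, h1, RingHom.comp_id] at h2
      rw [MvPolynomial.eval_map]
      exact h2.symm

end Pool.Agent.Helper36.VZ0
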