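import Mathlib
import Pool.Agent.Helper36.VZ0.Points
import Pool.Agent.Helper64.VZ.Std
import Pool.Agent.Helper64.VZ.Weil

/-!
The coefficient of the discriminant cannot be smaller than one, for points of degree at most four.
-/

set_option autoImplicit false

namespace Pool.Agent.Helper36.VZ0

open NumberField IntermediateField Module Height Pool.Agent.Helper64.Vojta
  Pool.Agent.Helper64.VZ Pool.Agent.VZ

universe u

section height

variable {L : Type*} [Field L] [NumberField L]

/-- the height of the sum of the coordinates -/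
theorem logHeight_sum_le {n : ℕ} (z : Fin (n + 1) → 𝓞 L) (hz : z 0 = 1) (s : 𝓞 L) (hs : ∑ i, z i = s) :
    logHeight₁ (s : L) ≤ logHeight (fun i => (z i : L)) + finrank ℚ L * (2 * Real.log (n + 2)) := by
  set x : Fin (n + 1) → L := fun i => (z i : L) with hx
  have hx0 : x 0 = 1 := by rw [hx]; simp [hz]
  have hxne : x ≠ 0 := by
    intro h
    rw [h] at hx0
    exact zero_ne_one hx0
  have h1 := sum_sn_le x hx0
  have hn : (0 : ℝ) ≤ n := Nat.cast_nonneg n
  have hl2 : 0 ≤ Real.log ((n : ℝ) + 2) := Real.log_nonneg (by linarith)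
  have key : ∀ w : InfinitePlace L, (w.mult : ℝ) * Real.posLog (w (s : L)) ≤
      Real.log (sn (.inl w) x) + w.mult * (2 * Real.log (n + 2)) := by
    intro w
    have hsn1 : 1 ≤ sn (.inl w) x := by
      have := le_sn (.inl w) x 0
      rwa [hx0, nv_one] at this
    have hm : (1 : ℝ) ≤ w.mult := by exact_mod_cast w.mult_pos
    have h9 : 2 * Real.log ((n : ℝ) + 2) ≤ w.mult * (2 * Real.log (n + 2)) := by nlinarith
    have e0 : (w.mult : ℝ) * Real.posLog (w (s : L)) ≤ Real.log (max 1 (nv (.inl w) (s : L))) := by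
      have h2 : max 1 (nv (.inl w) (s : L)) = (max 1 (w (s : L))) ^ w.mult := by
        show max 1 (w (s : L) ^ w.mult) = _
        rcases le_total 1 (w (s : L)) with h | h
        · rw [max_eq_right h, max_eq_right (one_le_pow₀ h)]
        · rw [max_eq_left h, max_eq_left (pow_le_one₀ (apply_nonneg w _) h), one_pow]
      rw [h2, Real.log_pow, Real.posLog_eq_log_max_one (apply_nonneg w _)]
    refine e0.trans ?_
    have h3 : nv (.inl w) (s : L) ≤ ((n : ℝ) + 2) ^ 2 * sn (.inl w) x := by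
      have h4 : (s : L) = ∑ i, x i := by
        rw [← hs]
        push_cast
        rfl
      rw [h4]
      refine (nv_sum_le (.inl w) _ _ (sn (.inl w) x) (sn_pos _ hxne).le fun i _ => le_sn _ _ _).trans ?_
      rw [Finset.card_univ, Fintype.card_fin]
      push_cast
      apply le_of_eq
      ring
    have h5 : max 1 (nv (.inl w) (s : L)) ≤ ((n : ℝ) + 2) ^ 2 * sn (.inl w) x := by
      apply max_le _ h3
      nlinarith
    have h6 := Real.log_le_log (lt_of_lt_of_le one_pos (le_max_left _ _)) h5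
    rw [Real.log_mul (by positivity) (by positivity), Real.log_pow] at h6
    push_cast at h6
    linarith
  rw [logHeight₁_int]
  have h5 := Finset.sum_le_sum fun (w : InfinitePlace L) (_ : w ∈ Finset.univ) => key w
  rw [Finset.sum_add_distrib, ← Finset.sum_mul, sum_mult] at h5
  linarith

end height

variable {k : Type u} [Field k] [NumberField k]

/-- Clause (0) for the standard hyperplanes. -/
theorem z0 (S : Finset (Pl k)) (hS : ∀ v : InfinitePlace k, Sum.inl v ∈ S) (n : ℕ) (hn : 0 < n) (α ε : ℝ)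
    (hα : 0 ≤ α) (_hε : 0 ≤ ε) (h : α + ε < 1) (G : MvPolynomial (Fin n) (AlgebraicClosure k)) (hG : G ≠ 0)
    (C : ℝ) : ∃ z, dg z ≤ 4 ∧ Violates S (Std k n) G α ε C z := by
  obtain ⟨n, rfl⟩ : ∃ m, n = m + 1 := ⟨n - 1, by omega⟩
  have hk0 : (0 : ℝ) < finrank ℚ k := finrank_pos' k
  set m : ℝ := (finrank ℚ k : ℝ) with hm
  -- an embedding
  obtain ⟨σ⟩ : Nonempty (AlgebraicClosure k →+* ℂ) := by
    obtain ⟨φ⟩ : Nonempty (k →+* ℂ) := inferInstance
    let _ : Algebra k ℂ := φ.toAlgebra
    exact ⟨(IsAlgClosed.lift (R := k) (S := AlgebraicClosure k) (M := ℂ)).toRingHom⟩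
  obtain ⟨c, hc⟩ := exists_points σ n G hG
  set c' : ℝ := c + 2 * Real.log ((n + 1 : ℕ) + 2) with hc'
  obtain ⟨y, hh, E, hM, hBd, hyE, hH, hyi, hyu, hsu, hGy⟩ :=
    hc (((1 - ε) * c' + α * c + C / m) / (1 - ε - α) + 1)
  have hsub : fld y ≤ E := by
    unfold fld
    rw [adjoin_le_iff]
    rintro _ ⟨j, rfl⟩
    exact hyE j
  obtain ⟨hnf, hdeg, hrd⟩ := hBd.sub hsub
  have hdg : dg y ≤ 4 := hdeg
  have hdg0 : 0 < dg y := by
    have : FiniteDimensional k (fld y) := FiniteDimensional.right ℚ k (fld y)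
    exact finrank_pos
  have hdg0' : (0 : ℝ) < dg y := by exact_mod_cast hdg0
  have hfr : (finrank ℚ (fld y) : ℝ) = m * dg y := by
    have : finrank ℚ k * finrank k (fld y) = finrank ℚ (fld y) := finrank_mul_finrank ℚ k (fld y)
    rw [hm, ← this]
    push_cast
    rfl
  -- integral coordinates
  let yi : Fin (n + 1) → 𝓞 (fld y) := fun j =>
    ⟨⟨y j, subset_adjoin k _ (Set.mem_range_self j)⟩, int_sub _ (hyi j)⟩
  let z : Fin (n + 1 + 1) → 𝓞 (fld y) := Fin.cons 1 yi
  have hzc : (fun i => (z i : fld y)) = crd y := by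
    funext i
    refine Fin.cases ?_ (fun j => ?_) i
    · show ((1 : 𝓞 (fld y)) : fld y) = 1
      simp
    · rfl
  have hunit : ∀ (a : 𝓞 (fld y)) (v : AlgebraicClosure k), IsIntegral ℤ v →
      ((a : fld y) : AlgebraicClosure k) * v = 1 → IsUnit a := by
    intro a v hv hav
    have ha0 : ((a : fld y) : AlgebraicClosure k) ≠ 0 := by
      intro h0
      rw [h0, zero_mul] at hav
      exact zero_ne_one hav
    have hv' : v = (((a : fld y) : AlgebraicClosure k))⁻¹ := by
      field_simp
      rw [mul_comm]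
      exact hav
    have hvE : v ∈ fld y := by
      rw [hv']
      exact (fld y).inv_mem (a : fld y).2
    refine IsUnit.of_mul_eq_one (⟨⟨v, hvE⟩, int_sub hvE hv⟩ : 𝓞 (fld y)) ?_
    apply RingOfIntegers.ext
    apply Subtype.ext
    exact hav
  have hzu : ∀ i, IsUnit (z i) := by
    intro i
    refine Fin.cases ?_ (fun j => ?_) i
    · exact isUnit_one
    · obtain ⟨v, hv, hv1⟩ := hyu j
      exact hunit (yi j) v hv hv1
  have hsum : (((∑ i, z i : 𝓞 (fld y)) : fld y) : AlgebraicClosure k) = 1 + ∑ j, y j := by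
    rw [Fin.sum_univ_succ]
    have e1 : z 0 = 1 := rfl
    have e2 : ∀ j : Fin (n + 1), z j.succ = yi j := fun j => rfl
    rw [e1]
    simp only [e2]
    push_cast
    rfl
  have hsunit : IsUnit (∑ i, z i) := by
    obtain ⟨v, hv, hv1⟩ := hsu
    exact hunit _ v hv (by rw [hsum]; exact hv1)
  have hzne : ∀ i, z i ≠ 0 := fun i => (hzu i).ne_zero
  have hw := weil_ge (k := k) (n + 1) S hS z hzne _ rfl hsunit.ne_zero
  rw [ln_unit _ hsunit, Finset.sum_congr rfl fun i _ => ln_unit _ (hzu i), Finset.sum_const_zero, add_zero,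
    sub_zero] at hw
  have hlam : ((n + 1 : ℕ) + 2) * hgt y ≤ lam (Std k (n + 1)) S y := by
    rw [lam_std]
    unfold hgt
    rw [← mul_div_assoc, div_le_div_iff_of_pos_right hdg0', ← hzc]
    exact hw
  -- the height
  have hh1 := logHeight_sum_le z rfl _ rfl
  have hh2 : nh (((∑ i, z i : 𝓞 (fld y)) : fld y)) = H (1 + ∑ j, y j) := by
    rw [← hsum]
    exact H_eq (fld y) _
  have hh3 : m * (hh - c') ≤ hgt y := by
    have e1 : logHeight₁ (((∑ i, z i : 𝓞 (fld y)) : fld y)) = finrank ℚ (fld y) * H (1 + ∑ j, y j) := by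
      rw [← hh2]
      unfold nh
      rw [mul_div_cancel₀ _ (finrank_pos' (fld y)).ne']
    rw [e1, hzc, hfr] at hh1
    unfold hgt
    rw [le_div_iff₀ hdg0']
    have e2 : m * dg y * (hh - c) ≤ m * dg y * H (1 + ∑ j, y j) :=
      mul_le_mul_of_nonneg_left hH (by positivity)
    rw [hc']
    push_cast at hh1 ⊢
    linarith
  -- the discriminant
  have hd : dk y ≤ m * (hh + c) := by
    have e1 : Real.log |(discr (fld y) : ℝ)| ≤ m * dg y * (hh + c) := by
      unfold rd at hrd
      rw [div_le_iff₀ (finrank_pos' (fld y)), hfr] at hrd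
      linarith
    have e2 : 0 ≤ Real.log |(discr k : ℝ)| := by
      apply Real.log_nonneg
      have h1 : 1 ≤ |discr k| := Int.one_le_abs (discr_ne_zero k)
      exact_mod_cast h1
    unfold dk
    have e3 : Real.log |(discr (fld y) : ℝ)| / dg y ≤ m * (hh + c) := by
      rw [div_le_iff₀ hdg0']
      linarith
    linarith
  refine ⟨y, hdg, hGy, std_ne y (fun i => ?_) ?_, ?_⟩
  · rw [← hzc]
    exact RingOfIntegers.coe_ne_zero_iff.mpr (hzne i)
  · rw [← hzc]
    have e1 : ∑ i, ((z i : 𝓞 (fld y)) : fld y) = ((∑ i, z i : 𝓞 (fld y)) : fld y) := by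
      push_cast
      rfl
    rw [e1]
    exact RingOfIntegers.coe_ne_zero_iff.mpr hsunit.ne_zero
  · have h1 : 0 < 1 - ε - α := by linarith
    have h2 : ((1 - ε) * c' + α * c + C / m) / (1 - ε - α) < hh := by linarith
    rw [div_lt_iff₀ h1] at h2
    have h3 : m * ((1 - ε) * c' + α * c + C / m) < m * (hh * (1 - ε - α)) := mul_lt_mul_of_pos_left h2 hk0
    have h4 : m * (C / m) = C := by field_simp
    have h5 : (1 - ε) * (m * (hh - c')) ≤ (1 - ε) * hgt y := mul_le_mul_of_nonneg_left hh3 (by linarith)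
    have h6 : α * dk y ≤ α * (m * (hh + c)) := mul_le_mul_of_nonneg_left hd hα
    push_cast at hlam ⊢
    have h7 : m * ((1 - ε) * c' + α * c + C / m) = (1 - ε) * m * c' + α * m * c + m * (C / m) := by ring
    have h8 : m * (hh * (1 - ε - α)) = (1 - ε) * (m * hh) - α * (m * hh) := by ring
    rw [h7, h4, h8] at h3
    nlinarith

end Pool.Agent.Helper36.VZ0
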