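import Mathlib
import Pool.Agent.Helper36.VZ0.Final0
import Pool.Agent.Helper64.VZ.Fam

/-!
The family of points of degree at most four.
-/

set_option autoImplicit false

namespace Pool.Agent.Helper36.VZ0

open NumberField IntermediateField Module Height Pool.Agent.Helper64.Vojta
  Pool.Agent.Helper64.VZ Pool.Agent.VZ

universe u

variable {k : Type u} [Field k] [NumberField k]

theorem fam0 (n : ℕ) (hn : 0 < n) (G : MvPolynomial (Fin n) (AlgebraicClosure k)) (hG : G ≠ 0) :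
    Fam n 1 4 G := by
  obtain ⟨n, rfl⟩ : ∃ m, n = m + 1 := ⟨n - 1, by omega⟩
  have hk0 : (0 : ℝ) < finrank ℚ k := finrank_pos' k
  set m : ℝ := (finrank ℚ k : ℝ) with hm
  obtain ⟨σ⟩ : Nonempty (AlgebraicClosure k →+* ℂ) := by
    obtain ⟨φ⟩ : Nonempty (k →+* ℂ) := inferInstance
    let _ : Algebra k ℂ := φ.toAlgebra
    exact ⟨(IsAlgClosed.lift (R := k) (S := AlgebraicClosure k) (M := ℂ)).toRingHom⟩
  obtain ⟨c, hc⟩ := exists_points σ n G hG
  have hn2 : (0 : ℝ) ≤ ((n + 1 : ℕ) : ℝ) := Nat.cast_nonneg _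
  have hlog : 0 ≤ Real.log (((n + 1 : ℕ) : ℝ) + 2) := Real.log_nonneg (by linarith)
  set c' : ℝ := c + 2 * Real.log ((n + 1 : ℕ) + 2) with hc'
  refine ⟨1, c', one_ne_zero, fun R => ?_⟩
  obtain ⟨y, hh, E, hM, hBd, hyE, hH, hyi, hyu, hsu, hGy⟩ := hc R
  have hsub : fld y ≤ E := by
    unfold fld
    rw [adjoin_le_iff]
    rintro _ ⟨j, rfl⟩
    exact hyE j
  obtain ⟨hnf, hdeg, hrd⟩ := hBd.sub hsub
  have hdg0 : 0 < dg y := by
    have : FiniteDimensional k (fld y) := FiniteDimensional.right ℚ k (fld y)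
    exact finrank_pos
  have hdg0' : (0 : ℝ) < dg y := by exact_mod_cast hdg0
  have hfr : (finrank ℚ (fld y) : ℝ) = m * dg y := by
    have : finrank ℚ k * finrank k (fld y) = finrank ℚ (fld y) := finrank_mul_finrank ℚ k (fld y)
    rw [hm, ← this]
    push_cast
    rfl
  let yi : Fin (n + 1) → 𝓞 (fld y) := fun j =>
    ⟨⟨y j, subset_adjoin k _ (Set.mem_range_self j)⟩, int_sub _ (hyi j)⟩
  let z : Fin (n + 1 + 1) → 𝓞 (fld y) := Fin.cons 1 yi
  have hzc : (fun i => (z i : fld y)) = crd y := by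
    funext i
    refine Fin.cases ?_ (fun j => ?_) i
    · show ((1 : 𝓞 (fld y)) : fld y) = 1
      simp
    · rfl
  have hsum : (((∑ i, z i : 𝓞 (fld y)) : fld y) : AlgebraicClosure k) = 1 + ∑ j, y j := by
    rw [Fin.sum_univ_succ]
    have e1 : z 0 = 1 := rfl
    have e2 : ∀ j : Fin (n + 1), z j.succ = yi j := fun j => rfl
    rw [e1]
    simp only [e2]
    push_cast
    rfl
  have hh1 := logHeight_sum_le z rfl _ rfl
  have hh2 : nh (((∑ i, z i : 𝓞 (fld y)) : fld y)) = H (1 + ∑ j, y j) := by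
    rw [← hsum]
    exact H_eq (fld y) _
  refine ⟨y, hh, hM, hyi, ?_, ?_, ⟨E, hyE, hBd.mono le_rfl (by linarith)⟩, ?_, hGy⟩
  · intro j
    obtain ⟨v, hv, hv1⟩ := hyu j
    exact ⟨v, hv, by rw [hv1]; simp⟩
  · obtain ⟨v, hv, hv1⟩ := hsu
    exact ⟨v, hv, by rw [hv1]; simp⟩
  · have e1 : logHeight₁ (((∑ i, z i : 𝓞 (fld y)) : fld y)) = finrank ℚ (fld y) * H (1 + ∑ j, y j) := by
      rw [← hh2]
      unfold nh
      rw [mul_div_cancel₀ _ (finrank_pos' (fld y)).ne']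
    rw [e1, hzc, hfr] at hh1
    unfold hgt
    rw [one_mul, le_div_iff₀ hdg0']
    have e2 : m * dg y * (hh - c) ≤ m * dg y * H (1 + ∑ j, y j) :=
      mul_le_mul_of_nonneg_left hH (by positivity)
    rw [hc']
    push_cast at hh1 ⊢
    linarith

end Pool.Agent.Helper36.VZ0
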